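import Pool.Agent.helper70.BR.SpecR

set_option autoImplicit false

namespace Pool.Agent.BR

open Pool.Agent.helper58.DC Pool.Agent.DI Pool.Agent.GR Pool.Agent.OB Pool.Agent.DR Pool.Agent.FI Pool.Agent.FI3 Pool.Agent.FI4 Pool.Agent.LE

theorem RDA_shift {G : Type} [Group G] (X : Type) (π : Equiv.Perm X) (m : ℕ) (hm : 0 < m) (F : X → G) (c : Fin m → X) :
    ∃ P : G, (List.ofFn fun i => F (c i)).prod = F (c ⟨0, hm⟩) * P ∧
      (List.ofFn fun i => F (KEY_shift π m hm c i)).prod = P * F (π (c ⟨0, hm⟩)) := by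
  rcases m with _ | k
  · exact absurd hm (lt_irrefl 0)
  refine ⟨(List.ofFn fun i : Fin k => F (KEY_ext π (k + 1) hm c (i + 1))).prod, ?_, ?_⟩
  · rw [List.ofFn_succ, List.prod_cons]
    have h1 : ∀ i : Fin k, c i.succ = KEY_ext π (k + 1) hm c (i + 1) := by
      intro i
      have := KEY_ext_lt π (k + 1) hm c i.succ
      rw [Fin.val_succ] at this
      exact this.symm
    have h2 : (fun i : Fin k => F (c i.succ)) = fun i : Fin k => F (KEY_ext π (k + 1) hm c (i + 1)) := by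
      funext i
      rw [h1 i]
    rw [h2]
    rfl
  · rw [List.ofFn_succ', List.concat_eq_append, List.prod_append, List.prod_singleton]
    have h1 : KEY_shift π (k + 1) hm c (Fin.last k) = π (c ⟨0, hm⟩) := by
      change KEY_ext π (k + 1) hm c (k + 1) = _
      have h2 := KEY_ext_add π (k + 1) hm c 0 1
      rw [mul_one, zero_add, pow_one] at h2
      rw [h2]
      have h3 := KEY_ext_lt π (k + 1) hm c ⟨0, hm⟩
      change KEY_ext π (k + 1) hm c 0 = _ at h3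
      rw [h3]
    rw [h1]
    rfl

/-- the pairs -/
def RDA_Z {G : Type} [Group G] (D : Subgroup G) (m : ℕ) : Type := G × (Fin m → G ⧸ D)

noncomputable instance {G : Type} [Group G] [Finite G] (D : Subgroup G) (m : ℕ) : Fintype (RDA_Z D m) := by
  unfold RDA_Z
  exact Fintype.ofFinite _

instance {G : Type} [Group G] (D : Subgroup G) (m : ℕ) : MulAction G (RDA_Z D m) where
  smul g z := (g * z.1 * g⁻¹, g • z.2)
  one_smul z := by
    change (1 * z.1 * 1⁻¹, (1 : G) • z.2) = z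
    rw [one_smul, one_mul, inv_one, mul_one]
    rfl
  mul_smul a b z := by
    change (a * b * z.1 * (a * b)⁻¹, (a * b) • z.2) = (a * (b * z.1 * b⁻¹) * a⁻¹, a • (b • z.2))
    rw [mul_smul]
    congr 1
    group

def RDA_mk {G : Type} [Group G] (D : Subgroup G) (m : ℕ) (w : G) (c : Fin m → G ⧸ D) : RDA_Z D m := (w, c)

theorem RDA_smul {G : Type} [Group G] (D : Subgroup G) (m : ℕ) (g w : G) (c : Fin m → G ⧸ D) :
    g • RDA_mk D m w c = RDA_mk D m (g * w * g⁻¹) (g • c) := rfl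

theorem RDA_fix {G : Type} [Group G] (D : Subgroup G) (m : ℕ) (g w : G) (c : Fin m → G ⧸ D) :
    g • RDA_mk D m w c = RDA_mk D m w c ↔ (g * w = w * g ∧ ∀ i, g • c i = c i) := by
  rw [RDA_smul]
  constructor
  · intro h
    have h1 : g * w * g⁻¹ = w := congrArg Prod.fst h
    have h2 : g • c = c := congrArg Prod.snd h
    refine ⟨?_, fun i => congrFun h2 i⟩
    calc g * w = g * w * g⁻¹ * g := by group
      _ = w * g := by rw [h1]
  · rintro ⟨h1, h2⟩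
    have h3 : g * w * g⁻¹ = w := by rw [h1]; group
    have h4 : g • c = c := funext h2
    rw [h3, h4]

theorem RDA_YT_smul {G : Type} [Group G] {D : Subgroup G} {x : G} (hx : ∀ d ∈ D, d * x = x * d) {m : ℕ} (g : G) (c : Fin m → G ⧸ D) :
    YT D x (g • c) = g * YT D x c * g⁻¹ := by
  unfold YT
  have h1 : (fun i => cx D x ((g • c) i)) = fun i => g * cx D x (c i) * g⁻¹ := by
    funext i
    exact cx_smul hx g (c i)
  rw [h1]
  have h2 : ∀ L : List G, (L.map fun y => g * y * g⁻¹).prod = g * L.prod * g⁻¹ := by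
    intro L
    induction L with
    | nil => simp
    | cons a L ih =>
      rw [List.map_cons, List.prod_cons, ih, List.prod_cons]
      group
  rw [← h2, List.map_ofFn]
  rfl

theorem RDA_YT_comm {G : Type} [Group G] {D : Subgroup G} {x : G} (hx : ∀ d ∈ D, d * x = x * d) {m : ℕ} {u : G} {c : Fin m → G ⧸ D}
    (h : ∀ i, u • c i = c i) : u * YT D x c = YT D x c * u := by
  have h1 := RDA_YT_smul hx u c
  have h2 : u • c = c := funext h
  rw [h2] at h1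
  calc u * YT D x c = u * YT D x c * u⁻¹ * u := by group
    _ = YT D x c * u := by rw [← h1]

/-- elements which fix a coset -/
theorem RDA_stab {G : Type} [Group G] {D : Subgroup G} {g t : G} (h : g • (t : G ⧸ D) = (t : G ⧸ D)) : t⁻¹ * g * t ∈ D := by
  have h1 : ((g * t : G) : G ⧸ D) = (t : G ⧸ D) := h
  rw [eq_comm, QuotientGroup.eq] at h1
  rwa [mul_assoc]

theorem RDA_pow {p : ℕ} (hp : p.Prime) (b : ℕ) (hb : 0 < b) {M : Ideal (integralClosure ℤ ℂ)} (hS : Setup p M) :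
    ∃ N : ℕ, IntAt M ((p : ℂ) ^ (N + 1) / b) := by
  obtain ⟨a, m, hm, hcard⟩ := Nat.exists_eq_pow_mul_and_not_dvd (n := b) hb.ne' p hp.ne_one
  refine ⟨a, ?_⟩
  have hm0 : (m : ℂ) ≠ 0 := by
    intro h0
    have : m = 0 := by exact_mod_cast h0
    rw [this] at hm
    exact hm (dvd_zero p)
  have h1 : (p : ℂ) ^ (a + 1) / b = p * (m : ℂ)⁻¹ := by
    rw [hcard]
    push_cast
    have : (p : ℂ) ^ a ≠ 0 := pow_ne_zero _ hS.p_ne
    field_simp
    ring
  rw [h1]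
  exact IntAt.mul hS (IntAt.natCast hS p) (IntAt.inv hS (IntAt.natCast hS m) fun h => hm ((InM.natCast hS m).1 h))

open Classical in
theorem RDA_A (hORB : GR.ORB_stmt) {p : ℕ} {M : Ideal (integralClosure ℤ ℂ)} (hS : Setup p M) {G : Type} [Group G] [Finite G]
    {D : Subgroup G} [Fintype (G ⧸ D)] {x : G} (hx : ∀ d ∈ D, d * x = x * d) {ψ : G → ℂ} (hcl : ∀ g h, ψ (h * g * h⁻¹) = ψ g)
    (hint : ∀ g, IsIntegral ℤ (ψ g)) {u w : G} (hu : PEl p u) (hw : PReg p w) (huw : u * w = w * u) (N : ℕ) :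
    Small p M (N + 1) (∑ c : Fin (p ^ N) → G ⧸ D, ψ (YT D x c * (u * w)⁻¹) -
      ∑ c ∈ Finset.univ.filter (fun c : Fin (p ^ N) → G ⧸ D => ∀ i, u • c i = c i), ψ (YT D x c * (u * w)⁻¹)) := by
  have hm : 0 < p ^ N := pow_pos hS.pr.pos N
  obtain ⟨n, hn⟩ := hu
  have hw0 : w ^ orderOf w = 1 := pow_orderOf_eq_one w
  have hcom : Commute u w := huw
  have h0 : ((u * w)⁻¹) ^ orderOf w = (u⁻¹) ^ orderOf w := by
    rw [inv_pow, hcom.mul_pow, hw0, mul_one, inv_pow]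
  have hpi : ∀ (g : G) (k : ℕ), (MulAction.toPerm g : Equiv.Perm (G ⧸ D)) ^ k = MulAction.toPerm (g ^ k) := by
    intro g k
    exact (map_pow (MulAction.toPermHom G (G ⧸ D)) g k).symm
  obtain ⟨s, hs, hsm⟩ := ROT hORB hS (G ⧸ D) (MulAction.toPerm (u * w)⁻¹) n (orderOf w) (by
      rw [hpi, hpi, h0, ← pow_mul, mul_comm, pow_mul, inv_pow, hn, inv_one, one_pow]
      exact (map_one (MulAction.toPermHom G (G ⧸ D)))) N hm (fun c => ψ (YT D x c * (u * w)⁻¹))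
    (fun c => IntAt.of_isIntegral hS (hint _)) (by
      intro c
      obtain ⟨P, hP1, hP2⟩ := RDA_shift (G ⧸ D) (MulAction.toPerm (u * w)⁻¹) (p ^ N) hm (cx D x) c
      change ψ ((List.ofFn fun i => cx D x (KEY_shift (MulAction.toPerm (u * w)⁻¹) (p ^ N) hm c i)).prod * (u * w)⁻¹) =
        ψ ((List.ofFn fun i => cx D x (c i)).prod * (u * w)⁻¹)
      rw [hP1, hP2, MulAction.toPerm_apply, cx_smul hx]
      have h1 : P * ((u * w)⁻¹ * cx D x (c ⟨0, hm⟩) * (u * w)⁻¹⁻¹) * (u * w)⁻¹ =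
          (cx D x (c ⟨0, hm⟩))⁻¹ * (cx D x (c ⟨0, hm⟩) * P * (u * w)⁻¹) * (cx D x (c ⟨0, hm⟩))⁻¹⁻¹ := by group
      rw [h1, hcl])
  have hiff : ∀ q : G ⧸ D, ((MulAction.toPerm (u * w)⁻¹ : Equiv.Perm (G ⧸ D)) ^ orderOf w) q = q ↔ u • q = q := by
    intro q
    rw [hpi, h0, MulAction.toPerm_apply, inv_pow, inv_smul_eq_iff]
    constructor
    · intro h
      have h1 : u ^ orderOf w ∈ MulAction.stabilizer G q := h.symm
      have h2 : (orderOf w).Coprime (p ^ n) := Nat.Coprime.pow_right _ ((Nat.Prime.coprime_iff_not_dvd hS.pr).2 hw).symm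
      have h3 : u ∈ Subgroup.zpowers (u ^ orderOf w) := by
        have h4 : (orderOf u).Coprime (orderOf w) := by
          refine Nat.Coprime.coprime_dvd_left (orderOf_dvd_of_pow_eq_one hn) h2.symm
        rw [mem_zpowers_pow_iff]
        exact h4.symm
      exact (Subgroup.zpowers_le.2 h1) h3
    · intro h
      have h1 : u ∈ MulAction.stabilizer G q := h
      have h2 : u ^ orderOf w ∈ MulAction.stabilizer G q := Subgroup.pow_mem _ h1 _
      exact (MulAction.mem_stabilizer_iff.1 h2).symm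
  have hse : s = Finset.univ.filter (fun c : Fin (p ^ N) → G ⧸ D => ∀ i, u • c i = c i) := by
    ext c
    rw [hs, Finset.mem_filter]
    constructor
    · intro h
      exact ⟨Finset.mem_univ _, fun i => (hiff _).1 (h i)⟩
    · rintro ⟨-, h⟩ i
      exact (hiff _).2 (h i)
  rw [← hse]
  exact hsm

open Classical in
/-- the sum over the stabiliser -/
noncomputable def RDA_T {G : Type} [Group G] [Fintype G] (p : ℕ) (D : Subgroup G) (x : G) (m : ℕ) (ψ : G → ℂ) (Φ : G → G → ℂ) (z : RDA_Z D m) : ℂ :=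
  if PReg p z.1 then ∑ u ∈ Finset.univ.filter (fun u : G => u • z = z), Φ u z.1 * ψ (YT D x z.2 * (u * z.1)⁻¹) else 0

theorem RDA_Tinv {G : Type} [Group G] [Fintype G] (p : ℕ) (D : Subgroup G) {x : G} (hx : ∀ d ∈ D, d * x = x * d) (m : ℕ) {ψ : G → ℂ}
    (hcl : ∀ g h, ψ (h * g * h⁻¹) = ψ g) {Φ : G → G → ℂ} (hΦ : ∀ g u w, Φ (g * u * g⁻¹) (g * w * g⁻¹) = Φ u w) (g : G) (z : RDA_Z D m) :
    RDA_T p D x m ψ Φ (g • z) = RDA_T p D x m ψ Φ z := by
  classical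
  unfold RDA_T
  have h1 : (g • z).1 = g * z.1 * g⁻¹ := rfl
  have h2 : (g • z).2 = g • z.2 := rfl
  have h3 : PReg p (g * z.1 * g⁻¹) ↔ PReg p z.1 := by
    unfold PReg
    have : orderOf (g * z.1 * g⁻¹) = orderOf z.1 := by
      have := orderOf_injective (MulAut.conj g).toMonoidHom (MulAut.conj g).injective z.1
      exact this
    rw [this]
  rw [h1, h2]
  by_cases hr : PReg p z.1
  · rw [if_pos (h3.2 hr), if_pos hr]
    refine Finset.sum_nbij' (fun u => g⁻¹ * u * g) (fun u => g * u * g⁻¹) ?_ ?_ ?_ ?_ ?_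
    · intro u hu
      rw [Finset.mem_filter] at hu ⊢
      refine ⟨Finset.mem_univ _, ?_⟩
      rw [mul_smul, mul_smul, hu.2, inv_smul_smul]
    · intro u hu
      rw [Finset.mem_filter] at hu ⊢
      refine ⟨Finset.mem_univ _, ?_⟩
      rw [mul_smul, mul_smul, inv_smul_smul, hu.2]
    · intro u _
      group
    · intro u _
      group
    · intro u _
      rw [RDA_YT_smul hx]
      have h4 : u = g * (g⁻¹ * u * g) * g⁻¹ := by group
      have h5 := hΦ g (g⁻¹ * u * g) z.1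
      rw [← h4] at h5
      rw [h5]
      have h6 : g * YT D x z.2 * g⁻¹ * (u * (g * z.1 * g⁻¹))⁻¹ = g * (YT D x z.2 * (g⁻¹ * u * g * z.1)⁻¹) * g⁻¹ := by group
      rw [h6, hcl]
  · rw [if_neg (fun h => hr (h3.1 h)), if_neg hr]

theorem RDA_Tint (hEXA : EXA_stmt) {p : ℕ} {M : Ideal (integralClosure ℤ ℂ)} (hS : Setup p M) {G : Type} [Group G] [Fintype G] (D : Subgroup G) {x : G}
    (hDp : IsPGroup p D) (hcom : ∀ c ∈ D, ∀ d ∈ D, c * d = d * c) (hx : ∀ d ∈ D, d * x = x * d) (m : ℕ) (hm : 0 < m) {ψ : G → ℂ}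
    (hψ : ψ ∈ IrrOn (⊤ : Subgroup G)) {Φ : G → G → ℂ}
    (hA : ∀ A : Subgroup G, IsPGroup p A → (∀ a ∈ A, ∀ b ∈ A, a * b = b * a) → ∀ w ∈ cz A, ∀ k : G → ℂ, LC A k →
      IntAt M ((∑ᶠ u ∈ (A : Set G), k u * Φ u w) / Nat.card A)) (z : RDA_Z D m) :
    IntAt M (RDA_T p D x m ψ Φ z / Nat.card (MulAction.stabilizer G z)) := by
  classical
  unfold RDA_T
  by_cases hr : PReg p z.1
  swap
  · rw [if_neg hr, zero_div]
    exact IntAt.zero hS
  rw [if_pos hr]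
  obtain ⟨w, c⟩ := z
  change PReg p w at hr
  have hfix : ∀ u ∈ MulAction.stabilizer G (RDA_mk D m w c), u * w = w * u ∧ ∀ i, u • c i = c i := fun u hu =>
    (RDA_fix D m u w c).1 hu
  obtain ⟨t, ht⟩ := QuotientGroup.mk_surjective (c ⟨0, hm⟩)
  have hD : ∀ u ∈ MulAction.stabilizer G (RDA_mk D m w c), t⁻¹ * u * t ∈ D := by
    intro u hu
    refine RDA_stab ?_
    rw [ht]
    exact (hfix u hu).2 _
  have hcomm : ∀ a ∈ MulAction.stabilizer G (RDA_mk D m w c), ∀ b ∈ MulAction.stabilizer G (RDA_mk D m w c), a * b = b * a := by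
    intro a ha b hb
    have h1 := hcom _ (hD a ha) _ (hD b hb)
    calc a * b = t * ((t⁻¹ * a * t) * (t⁻¹ * b * t)) * t⁻¹ := by group
      _ = t * ((t⁻¹ * b * t) * (t⁻¹ * a * t)) * t⁻¹ := by rw [h1]
      _ = b * a := by group
  have hpg : IsPGroup p (MulAction.stabilizer G (RDA_mk D m w c)) := by
    intro u
    obtain ⟨k, hk⟩ := hDp ⟨t⁻¹ * u * t, hD u u.2⟩
    refine ⟨k, ?_⟩
    have h1 : (t⁻¹ * (u : G) * t) ^ p ^ k = 1 := by
      have := congrArg Subtype.val hk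
      simpa using this
    have h2 : (t⁻¹ * (u : G) * t) ^ p ^ k = t⁻¹ * (u : G) ^ p ^ k * t := by
      have := conj_pow (a := t⁻¹) (b := (u : G)) (i := p ^ k)
      rwa [inv_inv] at this
    rw [h2] at h1
    apply Subtype.ext
    change (u : G) ^ p ^ k = 1
    calc (u : G) ^ p ^ k = t * (t⁻¹ * (u : G) ^ p ^ k * t) * t⁻¹ := by group
      _ = 1 := by rw [h1]; group
  have hwc : w ∈ cz (MulAction.stabilizer G (RDA_mk D m w c)) := by
    unfold cz
    rw [Subgroup.mem_centralizer_iff]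
    intro u hu
    exact (hfix u hu).1
  have hac : YT D x c * w⁻¹ ∈ cz (MulAction.stabilizer G (RDA_mk D m w c)) := by
    refine Subgroup.mul_mem _ ?_ (Subgroup.inv_mem _ hwc)
    unfold cz
    rw [Subgroup.mem_centralizer_iff]
    intro u hu
    exact RDA_YT_comm hx (hfix u hu).2
  have h := hEXA p M hS G (MulAction.stabilizer G (RDA_mk D m w c)) hcomm (YT D x c * w⁻¹) hac ψ hψ (fun u => Φ u w)
    (fun k hk => hA _ hpg hcomm w hwc k hk)
  have h2 : (∑ᶠ u ∈ ((MulAction.stabilizer G (RDA_mk D m w c) : Subgroup G) : Set G), Φ u w * ψ (YT D x c * w⁻¹ * u⁻¹)) =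
      ∑ u ∈ Finset.univ.filter (fun u : G => u • (RDA_mk D m w c) = RDA_mk D m w c), Φ u w * ψ (YT D x c * (u * w)⁻¹) := by
    rw [finsum_mem_eq_finite_toFinset_sum _ (Set.toFinite _)]
    have h3 : (Set.toFinite ((MulAction.stabilizer G (RDA_mk D m w c) : Subgroup G) : Set G)).toFinset =
        Finset.univ.filter (fun u : G => u • (RDA_mk D m w c) = RDA_mk D m w c) := by
      ext u
      simp only [Finset.mem_filter, Finset.mem_univ, true_and, Set.Finite.mem_toFinset]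
      rfl
    rw [h3]
    refine Finset.sum_congr rfl fun u _ => ?_
    have h4 : YT D x c * w⁻¹ * u⁻¹ = YT D x c * (u * w)⁻¹ := by group
    rw [h4]
  rw [h2] at h
  exact h

open Classical in
theorem RDA_reg {G : Type} [Group G] [Fintype G] (p : ℕ) (D : Subgroup G) [Fintype (G ⧸ D)] {x : G} (hDp : IsPGroup p D)
    (m : ℕ) (hm : 0 < m) (ψ : G → ℂ) (Φ : G → G → ℂ) :
    ∑ z : RDA_Z D m, RDA_T p D x m ψ Φ z =
      ∑ y ∈ Finset.univ.filter (fun y : G × G => PEl p y.1 ∧ PReg p y.2 ∧ y.1 * y.2 = y.2 * y.1), Φ y.1 y.2 *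
        ∑ c ∈ Finset.univ.filter (fun c : Fin m → G ⧸ D => ∀ i, y.1 • c i = c i), ψ (YT D x c * (y.1 * y.2)⁻¹) := by
  have hel : ∀ (u : G) (c : Fin m → G ⧸ D), (∀ i, u • c i = c i) → PEl p u := by
    intro u c h
    obtain ⟨t, ht⟩ := QuotientGroup.mk_surjective (c ⟨0, hm⟩)
    have h1 : t⁻¹ * u * t ∈ D := RDA_stab (by rw [ht]; exact h _)
    obtain ⟨k, hk⟩ := hDp ⟨t⁻¹ * u * t, h1⟩
    refine ⟨k, ?_⟩
    have h2 : (t⁻¹ * (u : G) * t) ^ p ^ k = 1 := by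
      have := congrArg Subtype.val hk
      simpa using this
    have h3 : (t⁻¹ * (u : G) * t) ^ p ^ k = t⁻¹ * (u : G) ^ p ^ k * t := by
      have := conj_pow (a := t⁻¹) (b := (u : G)) (i := p ^ k)
      rwa [inv_inv] at this
    rw [h3] at h2
    calc (u : G) ^ p ^ k = t * (t⁻¹ * (u : G) ^ p ^ k * t) * t⁻¹ := by group
      _ = 1 := by rw [h2]; group
  have h1 : ∑ z : RDA_Z D m, RDA_T p D x m ψ Φ z = ∑ z : G × (Fin m → G ⧸ D), RDA_T p D x m ψ Φ (RDA_mk D m z.1 z.2) :=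
    Fintype.sum_equiv (show RDA_Z D m ≃ G × (Fin m → G ⧸ D) from Equiv.refl _) _ _ (fun _ => rfl)
  rw [h1, Fintype.sum_prod_type]
  have h2 : ∀ (w : G) (c : Fin m → G ⧸ D), RDA_T p D x m ψ Φ (RDA_mk D m w c) =
      ∑ u : G, if (PEl p u ∧ PReg p w ∧ u * w = w * u) ∧ ∀ i, u • c i = c i then Φ u w * ψ (YT D x c * (u * w)⁻¹) else 0 := by
    intro w c
    unfold RDA_T
    change (if PReg p w then ∑ u ∈ Finset.univ.filter (fun u : G => u • RDA_mk D m w c = RDA_mk D m w c),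
      Φ u w * ψ (YT D x c * (u * w)⁻¹) else 0) = _
    by_cases hr : PReg p w
    · rw [if_pos hr, Finset.sum_filter]
      refine Finset.sum_congr rfl fun u _ => ?_
      by_cases hu : u • RDA_mk D m w c = RDA_mk D m w c
      · rw [if_pos hu]
        have hu' := (RDA_fix D m u w c).1 hu
        rw [if_pos ⟨⟨hel u c hu'.2, hr, hu'.1⟩, hu'.2⟩]
      · rw [if_neg hu, if_neg]
        rintro ⟨⟨-, -, h3⟩, h4⟩
        exact hu ((RDA_fix D m u w c).2 ⟨h3, h4⟩)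
    · rw [if_neg hr]
      symm
      refine Finset.sum_eq_zero fun u _ => ?_
      rw [if_neg]
      rintro ⟨⟨-, h3, -⟩, -⟩
      exact hr h3
  have h3 : ∑ w : G, ∑ c : Fin m → G ⧸ D, RDA_T p D x m ψ Φ (RDA_mk D m w c) =
      ∑ u : G, ∑ w : G, ∑ c : Fin m → G ⧸ D, if (PEl p u ∧ PReg p w ∧ u * w = w * u) ∧ ∀ i, u • c i = c i then
        Φ u w * ψ (YT D x c * (u * w)⁻¹) else 0 := by
    calc ∑ w : G, ∑ c : Fin m → G ⧸ D, RDA_T p D x m ψ Φ (RDA_mk D m w c) =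
        ∑ w : G, ∑ u : G, ∑ c : Fin m → G ⧸ D, (if (PEl p u ∧ PReg p w ∧ u * w = w * u) ∧ ∀ i, u • c i = c i then
          Φ u w * ψ (YT D x c * (u * w)⁻¹) else 0) := by
          refine Finset.sum_congr rfl fun w _ => ?_
          rw [Finset.sum_comm]
          exact Finset.sum_congr rfl fun c _ => h2 w c
      _ = _ := Finset.sum_comm
  rw [h3, Finset.sum_filter, Fintype.sum_prod_type]
  refine Finset.sum_congr rfl fun u _ => Finset.sum_congr rfl fun w _ => ?_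
  by_cases hc : PEl p u ∧ PReg p w ∧ u * w = w * u
  · rw [if_pos hc, Finset.sum_filter, Finset.mul_sum]
    refine Finset.sum_congr rfl fun c _ => ?_
    by_cases h4 : ∀ i, u • c i = c i
    · rw [if_pos ⟨hc, h4⟩, if_pos h4]
    · rw [if_neg (fun h => h4 h.2), if_neg h4, mul_zero]
  · rw [if_neg hc]
    exact Finset.sum_eq_zero fun c _ => if_neg fun h => hc h.1

theorem RDA_cls {G : Type} [Group G] (x : G) : (∀ l ∈ (⊤ : Subgroup G), ∀ y, cls (⊤ : Subgroup G) x (l * y * l⁻¹) = cls (⊤ : Subgroup G) x y) ∧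
    (∀ y, IsIntegral ℤ (cls (⊤ : Subgroup G) x y)) := by
  classical
  constructor
  · intro l _ y
    unfold cls
    have h1 : (∃ l' ∈ (⊤ : Subgroup G), l' * x * l'⁻¹ = l * y * l⁻¹) ↔ ∃ l' ∈ (⊤ : Subgroup G), l' * x * l'⁻¹ = y := by
      constructor
      · rintro ⟨l', -, h⟩
        refine ⟨l⁻¹ * l', Subgroup.mem_top _, ?_⟩
        calc l⁻¹ * l' * x * (l⁻¹ * l')⁻¹ = l⁻¹ * (l' * x * l'⁻¹) * l := by group
          _ = y := by rw [h]; group
      · rintro ⟨l', -, h⟩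
        refine ⟨l * l', Subgroup.mem_top _, ?_⟩
        calc l * l' * x * (l * l')⁻¹ = l * (l' * x * l'⁻¹) * l⁻¹ := by group
          _ = _ := by rw [h]
    by_cases h2 : ∃ l' ∈ (⊤ : Subgroup G), l' * x * l'⁻¹ = y
    · rw [if_pos h2, if_pos (h1.2 h2)]
    · rw [if_neg h2, if_neg (fun h => h2 (h1.1 h))]
  · intro y
    unfold cls
    split
    · exact isIntegral_one
    · exact isIntegral_zero

theorem RDA (hORB : GR.ORB_stmt) (hUNI : UNI_stmt) (hEXA : EXA_stmt) (hC3 : C3_stmt) (hB2 : B2_stmt) : RDA_stmt := by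
  classical
  intro p M hS G _ _ D x hDp hcom hx hcard ψ hψ hne Φ hΦ hb hA
  obtain ⟨b, hb0, hbI⟩ := hb
  have : Fact p.Prime := ⟨hS.pr⟩
  let _ : Fintype G := Fintype.ofFinite G
  let _ : Fintype (G ⧸ D) := Fintype.ofFinite (G ⧸ D)
  obtain ⟨-, hcl0, hint, -, -⟩ := (hB2 G (⊤ : Subgroup G)).2 ψ hψ
  have hcl : ∀ g h, ψ (h * g * h⁻¹) = ψ g := fun g h => hcl0 g h (Subgroup.mem_top h)
  have hG0 : 0 < Nat.card G := Nat.card_pos
  have hGc : (Nat.card G : ℂ) ≠ 0 := by exact_mod_cast hG0.ne'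
  have hbc : (b : ℂ) ≠ 0 := by exact_mod_cast hb0.ne'
  -- the scalar
  obtain ⟨ω, hω⟩ : ∃ ω : ℂ, ω = (Nat.card (Cz (⊤ : Subgroup G) x) : ℂ) / Nat.card D * cc ψ (cls (⊤ : Subgroup G) x) := ⟨_, rfl⟩
  have hcc : IsIntegral ℤ (cc ψ (cls (⊤ : Subgroup G) x)) := by
    exact (hC3 G).1 (⊤ : Subgroup G) ψ hψ _ (RDA_cls x).1 (RDA_cls x).2
  obtain ⟨j, hj1, hj2⟩ : ∃ j : ℕ, Nat.card (Cz (⊤ : Subgroup G) x) = Nat.card D * j ∧ ¬ p ∣ j := by
    rw [hcard]
    unfold pp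
    have h1 : Nat.card (Cz (⊤ : Subgroup G) x) ≠ 0 := (Nat.card_pos).ne'
    obtain ⟨j, hj⟩ := pow_padicValNat_dvd (p := p) (n := Nat.card (Cz (⊤ : Subgroup G) x))
    refine ⟨j, hj, fun h2 => ?_⟩
    obtain ⟨j', rfl⟩ := h2
    refine pow_succ_padicValNat_not_dvd (p := p) h1 ⟨j', ?_⟩
    rw [pow_succ]
    calc Nat.card (Cz (⊤ : Subgroup G) x) = p ^ padicValNat p (Nat.card (Cz (⊤ : Subgroup G) x)) * (p * j') := hj
      _ = _ := by ring
  have hDc : (Nat.card D : ℂ) ≠ 0 := by exact_mod_cast (Nat.card_pos (α := D)).ne'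
  have hω' : ω = (j : ℂ) * cc ψ (cls (⊤ : Subgroup G) x) := by
    rw [hω, hj1]
    push_cast
    field_simp
  have hωI : IntAt M ω := by
    rw [hω']
    exact IntAt.mul hS (IntAt.natCast hS j) (IntAt.of_isIntegral hS hcc)
  have hωM : ¬ InM M ω := by
    rw [hω']
    intro h
    rcases InM.or hS (IntAt.natCast hS j) (IntAt.of_isIntegral hS hcc) h with h1 | h1
    · exact hj2 ((InM.natCast hS j).1 h1)
    · exact hne h1
  -- the exponent
  obtain ⟨N, hN⟩ := RDA_pow hS.pr (b * Nat.card G) (Nat.mul_pos hb0 hG0) hS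
  obtain ⟨m, hmm⟩ : ∃ m, m = p ^ N := ⟨_, rfl⟩
  have hm : 0 < p ^ N := pow_pos hS.pr.pos N
  obtain ⟨S, hSS⟩ : ∃ S : ℂ, S = ∑ᶠ z ∈ {z : G × G | PEl p z.1 ∧ PReg p z.2 ∧ z.1 * z.2 = z.2 * z.1}, Φ z.1 z.2 * ψ (z.1 * z.2)⁻¹ :=
    ⟨_, rfl⟩
  have hSS' : S = ∑ y ∈ Finset.univ.filter (fun y : G × G => PEl p y.1 ∧ PReg p y.2 ∧ y.1 * y.2 = y.2 * y.1),
      Φ y.1 y.2 * ψ (y.1 * y.2)⁻¹ := by
    rw [hSS, finsum_mem_eq_finite_toFinset_sum _ (Set.toFinite _)]
    refine Finset.sum_congr ?_ fun _ _ => rfl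
    ext y
    simp only [Finset.mem_filter, Finset.mem_univ, true_and, Set.Finite.mem_toFinset, Set.mem_ofPred_eq]
  rw [← hSS]
  have hFR : IntAt M ((∑ z : RDA_Z D (p ^ N), RDA_T p D x (p ^ N) ψ Φ z) / Nat.card G) :=
    FRB_orb hS G (RDA_Z D (p ^ N)) (RDA_T p D x (p ^ N) ψ Φ) (fun g z => RDA_Tinv p D hx (p ^ N) hcl hΦ g z)
      (fun z => RDA_Tint hEXA hS D hDp hcom hx (p ^ N) hm hψ hA z)
  rw [RDA_reg p D hDp (p ^ N) hm ψ Φ] at hFR
  have hmain : IntAt M (ω ^ p ^ N * S / Nat.card G) := by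
    have h1 : ω ^ p ^ N * S = ∑ y ∈ Finset.univ.filter (fun y : G × G => PEl p y.1 ∧ PReg p y.2 ∧ y.1 * y.2 = y.2 * y.1),
        Φ y.1 y.2 * ∑ c : Fin (p ^ N) → G ⧸ D, ψ (YT D x c * (y.1 * y.2)⁻¹) := by
      rw [hSS', Finset.mul_sum]
      refine Finset.sum_congr rfl fun y _ => ?_
      have h2 := hUNI G D x hx ψ hψ (p ^ N) (y.1 * y.2)⁻¹
      rw [finsum_eq_sum_of_fintype, ← hω] at h2
      rw [h2]
      ring
    have h2 : ω ^ p ^ N * S / Nat.card G = (∑ y ∈ Finset.univ.filter (fun y : G × G => PEl p y.1 ∧ PReg p y.2 ∧ y.1 * y.2 = y.2 * y.1), Φ y.1 y.2 *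
        ∑ c ∈ Finset.univ.filter (fun c : Fin (p ^ N) → G ⧸ D => ∀ i, y.1 • c i = c i), ψ (YT D x c * (y.1 * y.2)⁻¹)) / Nat.card G +
        ∑ y ∈ Finset.univ.filter (fun y : G × G => PEl p y.1 ∧ PReg p y.2 ∧ y.1 * y.2 = y.2 * y.1), Φ y.1 y.2 *
        (∑ c : Fin (p ^ N) → G ⧸ D, ψ (YT D x c * (y.1 * y.2)⁻¹) -
          ∑ c ∈ Finset.univ.filter (fun c : Fin (p ^ N) → G ⧸ D => ∀ i, y.1 • c i = c i), ψ (YT D x c * (y.1 * y.2)⁻¹)) / Nat.card G := by
      rw [h1, Finset.sum_div, Finset.sum_div, ← Finset.sum_add_distrib]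
      refine Finset.sum_congr rfl fun y _ => ?_
      ring
    rw [h2]
    refine IntAt.add hS hFR (IntAt.sum hS _ fun y hy => ?_)
    rw [Finset.mem_filter] at hy
    obtain ⟨v, hv, hv'⟩ := RDA_A hORB hS hx hcl hint hy.2.1 hy.2.2.1 hy.2.2.2 N
    rw [hv']
    have h3 : Φ y.1 y.2 * ((p : ℂ) ^ (N + 1) * v) / Nat.card G = (b : ℂ) * Φ y.1 y.2 * v * ((p : ℂ) ^ (N + 1) / ((b * Nat.card G : ℕ) : ℂ)) := by
      push_cast
      field_simp
    rw [h3]
    exact IntAt.mul hS (IntAt.mul hS (hbI _ _) hv) hN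
  have h4 : ¬ InM M (ω ^ p ^ N) := fun h => hωM (InM.of_pow hS hωI h)
  have h5 := IntAt.mul hS (IntAt.inv hS (IntAt.pow hS hωI _) h4) hmain
  have h6 : ω ^ p ^ N ≠ 0 := by
    intro h0
    exact h4 (by rw [h0]; exact InM.zero hS)
  have h7 : (ω ^ p ^ N)⁻¹ * (ω ^ p ^ N * S / Nat.card G) = S / Nat.card G := by
    field_simp
  rwa [h7] at h5

/-- **BPM** from the rows. -/
theorem BPM (hTPR : Pool.Agent.FI.TPR_stmt) (hRDA : RDA_stmt) (hLNK : LNK_stmt) (hTHC : THC_stmt) (hABZ : ABZ_stmt) : BPM_stmt := by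
  intro p M hS G _ _ D x θ χ h l ψ hψ ψ' hψ'
  have hG : (Nat.card G : ℂ) ≠ 0 := by
    exact_mod_cast (Nat.card_pos (α := G)).ne'
  obtain ⟨h1, h2⟩ := hTHC p M hS G D θ l ψ hψ.1
  have hlnk := hLNK p M hS G D x θ χ h l ψ hψ.1 ψ' hψ'.1
  obtain ⟨-, hind, hdl, -, -⟩ := hTPR p M hS G
  have hdef : DefL p M (⊤ : Subgroup G) χ D x := hdl χ D x h.rt.dfa
  have hxc : ∀ d ∈ D, d * x = x * d := by
    intro d hd
    have h3 := hdef.le hd
    have h4 : d ∈ Subgroup.centralizer ({x} : Set G) := h3.2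
    rw [Subgroup.mem_centralizer_iff] at h4
    exact (h4 x rfl).symm
  have hsb : SB M (⊤ : Subgroup G) ψ' χ := SB.trans hψ'.2 ((hind θ χ).1 h.rt.ind)
  have hne : ¬ InM M (cc ψ' (cls (⊤ : Subgroup G) x)) := by
    intro h3
    have h4 := InM.of_mcong hS (hsb (cls (⊤ : Subgroup G) x) ⟨(RDA_cls x).1, fun y hy => absurd (Subgroup.mem_top y) hy⟩ (RDA_cls x).2)
    apply hdef.ne
    have h5 := InM.sub hS h3 h4
    rwa [sub_sub_cancel] at h5
  have key := hRDA p M hS G D x hdef.pg h.rt.com hxc hdef.card ψ' hψ'.1 hne (TH M D θ l ψ) h1 h2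
    (fun A hA com w hw k hk => hABZ p M hS G D x θ χ h l ψ hψ.1 A hA com w hw k hk)
  rw [← hlnk, mul_div_cancel_left₀ _ hG] at key
  exact key

end Pool.Agent.BR
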