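import Pool.Agent.helper70.BR.SpecR

set_option autoImplicit false

namespace Pool.Agent.BR

open Pool.Agent.helper58.DC Pool.Agent.DI Pool.Agent.GR Pool.Agent.OB Pool.Agent.DR Pool.Agent.FI Pool.Agent.FI3 Pool.Agent.FI4 Pool.Agent.LE

/-- sums over cosets -/
theorem UNI_coset {G : Type} [Group G] [Fintype G] (D : Subgroup G) [Fintype (G ⧸ D)] (F : G → ℂ) (F' : G ⧸ D → ℂ)
    (h : ∀ t : G, F t = F' (t : G ⧸ D)) : ∑ t : G, F t = Nat.card D * ∑ q : G ⧸ D, F' q := by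
  classical
  rw [← Finset.sum_fiberwise_of_maps_to (t := Finset.univ) (g := fun t : G => (t : G ⧸ D)) (fun _ _ => Finset.mem_univ _),
    Finset.mul_sum]
  refine Finset.sum_congr rfl fun q _ => ?_
  obtain ⟨t0, rfl⟩ := QuotientGroup.mk_surjective q
  have h1 : ∀ t ∈ Finset.univ.filter (fun t : G => (t : G ⧸ D) = (t0 : G ⧸ D)), F t = F' (t0 : G ⧸ D) := by
    intro t ht
    rw [h t, (Finset.mem_filter.1 ht).2]
  rw [Finset.sum_congr rfl h1, Finset.sum_const, nsmul_eq_mul]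
  congr 2
  have h2 : Nat.card {t : G // (t : G ⧸ D) = (t0 : G ⧸ D)} = Nat.card D := by
    refine Nat.card_congr ⟨fun t => ⟨t0⁻¹ * t.1, QuotientGroup.eq.1 t.2.symm⟩, fun d => ⟨t0 * d.1, ?_⟩, ?_, ?_⟩
    · rw [eq_comm, QuotientGroup.eq]
      have : t0⁻¹ * (t0 * (d : G)) = d := by group
      rw [this]
      exact d.2
    · intro t
      apply Subtype.ext
      change t0 * (t0⁻¹ * t.1) = t.1
      group
    · intro d
      apply Subtype.ext
      change t0⁻¹ * (t0 * (d : G)) = d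
      group
  rw [← h2, Nat.card_eq_fintype_card, Fintype.card_subtype]

theorem UNI_one (hEVM : EVM_stmt) (hB2 : B2_stmt) {G : Type} [Group G] [Fintype G] (D : Subgroup G) [Fintype (G ⧸ D)] {x : G}
    (hx : ∀ d ∈ D, d * x = x * d) {ψ : G → ℂ} (hψ : ψ ∈ IrrOn (⊤ : Subgroup G)) (g : G) :
    ∑ q : G ⧸ D, ψ (g * cx D x q) = (Nat.card (Cz (⊤ : Subgroup G) x) : ℂ) / Nat.card D * cc ψ (cls (⊤ : Subgroup G) x) * ψ g := by
  classical
  obtain ⟨-, hcl0, -, -, -⟩ := (hB2 G (⊤ : Subgroup G)).2 ψ hψ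
  have hD0 : (Nat.card D : ℂ) ≠ 0 := by exact_mod_cast (Nat.card_pos (α := D)).ne'
  have h1 : ∑ t : G, ψ (g * (t * x * t⁻¹)) = Nat.card D * ∑ q : G ⧸ D, ψ (g * cx D x q) :=
    UNI_coset D _ _ fun t => by rw [cx_mk hx]
  have hCF : CF (⊤ : Subgroup G) (cls (⊤ : Subgroup G) x) := by
    refine ⟨?_, fun y hy => absurd (Subgroup.mem_top y) hy⟩
    intro l _ y
    unfold cls
    have h1 : (∃ l' ∈ (⊤ : Subgroup G), l' * x * l'⁻¹ = l * y * l⁻¹) ↔ ∃ l' ∈ (⊤ : Subgroup G), l' * x * l'⁻¹ = y := by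
      constructor
      · rintro ⟨l', -, h⟩
        refine ⟨l⁻¹ * l', Subgroup.mem_top _, ?_⟩
        calc l⁻¹ * l' * x * (l⁻¹ * l')⁻¹ = l⁻¹ * (l' * x * l'⁻¹) * l := by group
          _ = y := by rw [h]; group
      · rintro ⟨l', -, h⟩
        refine ⟨l * l', Subgroup.mem_top _, ?_⟩
        calc l * l' * x * (l * l')⁻¹ = l * (l' * x * l'⁻¹) * l⁻¹ := by group
          _ = _ := by rw [h]
    by_cases h2 : ∃ l' ∈ (⊤ : Subgroup G), l' * x * l'⁻¹ = y
    · rw [if_pos h2, if_pos (h1.2 h2)]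
    · rw [if_neg h2, if_neg (fun h => h2 (h1.1 h))]
  have h2 := (hEVM G (⊤ : Subgroup G) ψ hψ (cls (⊤ : Subgroup G) x) hCF g (Subgroup.mem_top g)).2
  have h3 : ∑ t : G, ψ (g * (t * x * t⁻¹)) = Nat.card (Cz (⊤ : Subgroup G) x) * ∑ y : G, cls (⊤ : Subgroup G) x y * ψ (g * y) := by
    rw [← Finset.sum_fiberwise_of_maps_to (t := Finset.univ) (g := fun t : G => t * x * t⁻¹) (fun _ _ => Finset.mem_univ _), Finset.mul_sum]
    refine Finset.sum_congr rfl fun y _ => ?_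
    have h4 : ∀ t ∈ Finset.univ.filter (fun t : G => t * x * t⁻¹ = y), ψ (g * (t * x * t⁻¹)) = ψ (g * y) := by
      intro t ht
      rw [(Finset.mem_filter.1 ht).2]
    rw [Finset.sum_congr rfl h4, Finset.sum_const, nsmul_eq_mul]
    unfold cls
    by_cases h5 : ∃ l ∈ (⊤ : Subgroup G), l * x * l⁻¹ = y
    · rw [if_pos h5, one_mul]
      obtain ⟨t0, -, rfl⟩ := h5
      congr 2
      have h6 : Nat.card {t : G // t * x * t⁻¹ = t0 * x * t0⁻¹} = Nat.card (Cz (⊤ : Subgroup G) x) := by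
        have h7 : ∀ c : G, c ∈ Cz (⊤ : Subgroup G) x ↔ c * x = x * c := by
          intro c
          unfold Cz
          rw [Subgroup.mem_inf, Subgroup.mem_centralizer_singleton_iff]
          exact ⟨fun h => h.2, fun h => ⟨Subgroup.mem_top c, h⟩⟩
        refine Nat.card_congr ⟨fun t => ⟨t0⁻¹ * t.1, ?_⟩, fun c => ⟨t0 * c.1, ?_⟩, ?_, ?_⟩
        · rw [h7]
          calc t0⁻¹ * t.1 * x = t0⁻¹ * (t.1 * x * t.1⁻¹) * t.1 := by group
            _ = t0⁻¹ * (t0 * x * t0⁻¹) * t.1 := by rw [t.2]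
            _ = _ := by group
        · have h8 := (h7 c.1).1 c.2
          calc t0 * c.1 * x * (t0 * c.1)⁻¹ = t0 * (c.1 * x) * c.1⁻¹ * t0⁻¹ := by group
            _ = t0 * (x * c.1) * c.1⁻¹ * t0⁻¹ := by rw [h8]
            _ = _ := by group
        · intro t
          apply Subtype.ext
          change t0 * (t0⁻¹ * t.1) = t.1
          group
        · intro c
          apply Subtype.ext
          change t0⁻¹ * (t0 * (c : G)) = c
          group
      rw [← h6, Nat.card_eq_fintype_card, Fintype.card_subtype]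
    · rw [if_neg h5, zero_mul, mul_zero]
      have h6 : (Finset.univ.filter (fun t : G => t * x * t⁻¹ = y)).card = 0 := by
        rw [Finset.card_eq_zero, Finset.filter_eq_empty_iff]
        intro t _ h7
        exact h5 ⟨t, Subgroup.mem_top t, h7⟩
      rw [h6, Nat.cast_zero, zero_mul]
  have h4 : ∑ y : G, cls (⊤ : Subgroup G) x y * ψ (g * y) = cc ψ (cls (⊤ : Subgroup G) x) * ψ g := by
    rw [← h2]
    unfold ev
    rw [finsum_eq_sum_of_fintype]
  rw [h4, h1] at h3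
  field_simp
  linear_combination h3

theorem UNI (hEVM : EVM_stmt) (hB2 : B2_stmt) : UNI_stmt := by
  classical
  intro G _ _ D x hx ψ hψ m
  let _ : Fintype G := Fintype.ofFinite G
  let _ : Fintype (G ⧸ D) := Fintype.ofFinite (G ⧸ D)
  obtain ⟨-, hcl0, -, -, -⟩ := (hB2 G (⊤ : Subgroup G)).2 ψ hψ
  induction m with
  | zero =>
    intro g
    rw [finsum_eq_sum_of_fintype, Fintype.sum_unique, pow_zero, one_mul]
    congr 1
    unfold YT
    rw [List.ofFn_zero, List.prod_nil, one_mul]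
  | succ m ih =>
    intro g
    have ih' : ∀ g : G, ∑ c : Fin m → G ⧸ D, ψ (YT D x c * g) =
        ((Nat.card (Cz (⊤ : Subgroup G) x) : ℂ) / Nat.card D * cc ψ (cls (⊤ : Subgroup G) x)) ^ m * ψ g := by
      intro g
      rw [← ih g, finsum_eq_sum_of_fintype]
    rw [finsum_eq_sum_of_fintype]
    have h1 : ∑ c : Fin (m + 1) → G ⧸ D, ψ (YT D x c * g) = ∑ z : (G ⧸ D) × (Fin m → G ⧸ D), ψ (YT D x (Fin.cons z.1 z.2 : Fin (m + 1) → G ⧸ D) * g) :=
      (Fintype.sum_equiv (Fin.consEquiv fun _ : Fin (m + 1) => G ⧸ D) _ _ (fun _ => rfl)).symm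
    rw [h1, Fintype.sum_prod_type]
    have h2 : ∀ (q : G ⧸ D) (c : Fin m → G ⧸ D), ψ (YT D x (Fin.cons q c : Fin (m + 1) → G ⧸ D) * g) = ψ (YT D x c * (g * cx D x q)) := by
      intro q c
      have h3 : YT D x (Fin.cons q c : Fin (m + 1) → G ⧸ D) = cx D x q * YT D x c := by
        unfold YT
        rw [List.ofFn_succ, List.prod_cons]
        rfl
      rw [h3]
      have h4 : YT D x c * (g * cx D x q) = (cx D x q)⁻¹ * (cx D x q * YT D x c * g) * (cx D x q)⁻¹⁻¹ := by group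
      rw [h4, hcl0 _ _ (Subgroup.mem_top _)]
    have h3 : ∑ q : G ⧸ D, ∑ c : Fin m → G ⧸ D, ψ (YT D x (Fin.cons q c : Fin (m + 1) → G ⧸ D) * g) =
        ∑ q : G ⧸ D, ((Nat.card (Cz (⊤ : Subgroup G) x) : ℂ) / Nat.card D * cc ψ (cls (⊤ : Subgroup G) x)) ^ m * ψ (g * cx D x q) := by
      refine Finset.sum_congr rfl fun q _ => ?_
      rw [← ih' (g * cx D x q)]
      exact Finset.sum_congr rfl fun c _ => h2 q c
    rw [h3, ← Finset.mul_sum, UNI_one hEVM hB2 D hx hψ g]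
    ring

end Pool.Agent.BR
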