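import Pool.Agent.helper24.BR.AllA
import Pool.Agent.helper77.BR.LAM
import Pool.Agent.helper64.BR.EXA
import Pool.Agent.helper14.BR.LNK
import Pool.Agent.helper39.BR.THC
import Pool.Agent.helper70.BR.RDA
import Pool.Agent.helper70.BR.UNI
import Pool.Agent.helper27.BR.THB
import Pool.Agent.helper59.FI4.AllP4

/-!
# Project BR (MP_baa4d7_al), block BP: Broué-Puig integrality at `p` (assembly)
-/

set_option autoImplicit false

namespace Pool.Agent.BR.AllBP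

open Pool.Agent.helper58.DC Pool.Agent.DI Pool.Agent.GR Pool.Agent.OB Pool.Agent.DR Pool.Agent.FI Pool.Agent.FI3 Pool.Agent.FI4 Pool.Agent.LE Pool.Agent.BR

theorem bUNI : UNI_stmt := BR.UNI AllR.rEVM GR.All.dB2
theorem bREP : REP_stmt := BR.REP GR.All.dB2 AllA.dBLE
theorem bTHB : THB_stmt := BR.THB bREP AllA.dEXB AllR.rEVF
theorem bEXA : EXA_stmt := BR.EXA AllQ.qQRS AllQ.qQCE GR.All.dB2
theorem bLNK : LNK_stmt := BR.LNK GR.All.dB2
theorem bTHC : THC_stmt := BR.THC GR.All.dC3 GR.All.dB2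
theorem bRDA : RDA_stmt := BR.RDA GR.All.dORB bUNI bEXA GR.All.dC3 GR.All.dB2
theorem bLAM : LAM_stmt := BR.LAM AllP4.pQFU4 AllA.dEXB
theorem bABZ : ABZ_stmt := ABZ_all bLAM bTHB AllQ.qQEV GR.All.dB2 AllA.dBLE GR.All.dPRD AllB.dEQR AllA.dEXB GR.All.dCVF
theorem bBPM : BPM_stmt := BR.BPM AllA.dTPR bRDA bLNK bTHC bABZ

end Pool.Agent.BR.AllBP
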