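import Mathlib
import Pool.Agent.helper12.BR.DefsR

/-!
# Project BR (MP_baa4d7_al): the abelian step of Broué-Puig, shared definition
-/

set_option autoImplicit false

namespace Pool.Agent.BR

open Pool.Agent.helper58.DC Pool.Agent.DI Pool.Agent.GR Pool.Agent.OB Pool.Agent.DR Pool.Agent.FI Pool.Agent.FI3 Pool.Agent.FI4 Pool.Agent.LE

section

variable {G : Type} [Group G]

/-- The value of `l^I * ψ` at `u w` (`u` a `p`-element, `w` a `p`-regular element of `C(u)`):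
`∑_t |C_I(v)| / |C(u)| * l(v) * ψ(t u w t⁻¹ e_v)` over the `t ∈ G` with `v = t u t⁻¹ ∈ D`, `e_v` the idempotent of `b(θ)^(C(v))`. -/
noncomputable def TH (M : Ideal (integralClosure ℤ ℂ)) (D : Subgroup G) (θ : G → ℂ) (l : D →* ℂˣ) (ψ : G → ℂ) (u w : G) : ℂ :=
  ∑ᶠ t : {t : G // t * u * t⁻¹ ∈ D},
    ci M D θ (t * u * (t : G)⁻¹) / Nat.card (Cz (⊤ : Subgroup G) u) * (l ⟨t * u * (t : G)⁻¹, t.2⟩ : ℂ) *
      ev ψ (eS (Cz (⊤ : Subgroup G) (t * u * (t : G)⁻¹)) (Bl M (Cz (⊤ : Subgroup G) (t * u * (t : G)⁻¹)) θ)) (t * (u * w) * (t : G)⁻¹)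

end

/-- **ABL** (block of helper24). The abelian step: for a commutative `p`-subgroup `A` and a `p`-regular `w` commuting with `A` the function
`u ↦ (l^I * ψ)(u w)` on `A` is a combination of linear characters of `A` with coefficients integral at `p`. -/
def ABL_stmt : Prop :=
  ∀ (p : ℕ) (M : Ideal (integralClosure ℤ ℂ)), Setup p M → ∀ (G : Type) [Group G] [Finite G]
    (D : Subgroup G) (x : G) (θ χ : G → ℂ), LoA p M D x θ χ → ∀ l : D →* ℂˣ, ∀ ψ ∈ Bl M (⊤ : Subgroup G) θ,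
    ∀ A : Subgroup G, IsPGroup p A → (∀ a ∈ A, ∀ b ∈ A, a * b = b * a) → ∀ w ∈ cz A, PReg p w → ∀ κ : A →* ℂˣ,
    IntAt M ((∑ᶠ u : A, TH M D θ l ψ u w * (κ u : ℂ)) / Nat.card A)

end Pool.Agent.BR
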