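import Pool.Agent.helper79.GR.KEY

/-!
# Project BR (MP_baa4d7_al): rotation of tuples (pure)
-/

set_option autoImplicit false

namespace Pool.Agent.BR

open Pool.Agent.helper58.DC Pool.Agent.DI Pool.Agent.GR

/-- **ROT**. Rotation of the tuples `c : Fin (p ^ N) → X`: a function invariant under the twisted rotation has, modulo `p ^ (N + 1)`, the same
sum over all tuples and over the tuples fixed by the `p`-part of `π`. -/
theorem ROT (hORB : ORB_stmt) {p : ℕ} {M : Ideal (integralClosure ℤ ℂ)} (hS : Setup p M) (X : Type) [Fintype X] (π : Equiv.Perm X)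
    (n n₀ : ℕ) (hπ : (π ^ n₀) ^ p ^ n = 1) (N : ℕ) (hm : 0 < p ^ N) (f : (Fin (p ^ N) → X) → ℂ)
    (hI : ∀ c, IntAt M (f c)) (hf : ∀ c, f (KEY_shift π (p ^ N) hm c) = f c) :
    ∃ s : Finset (Fin (p ^ N) → X), (∀ c, c ∈ s ↔ ∀ i, (π ^ n₀) (c i) = c i) ∧ Small p M (N + 1) (∑ c, f c - ∑ c ∈ s, f c) := by
  classical
  obtain ⟨R, hR⟩ : ∃ R : Equiv.Perm (Fin (p ^ N) → X), ∀ c, R c = KEY_shift π (p ^ N) hm c :=
    ⟨Equiv.ofBijective _ (Finite.injective_iff_bijective.1 (KEY_shift_inj π (p ^ N) hm)), fun _ => rfl⟩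
  have hRf : (R : (Fin (p ^ N) → X) → (Fin (p ^ N) → X)) = KEY_shift π (p ^ N) hm := funext hR
  have hRj : ∀ j c i, KEY_ext π (p ^ N) hm ((R ^ j) c) i = KEY_ext π (p ^ N) hm c (i + j) := by
    intro j c i
    rw [← Equiv.Perm.iterate_eq_pow, hRf, KEY_ext_iter]
  have hfR : ∀ c, f (R c) = f c := fun c => by rw [hR]; exact hf c
  have hfRj : ∀ j c, f ((R ^ j) c) = f c := by
    intro j
    induction j with
    | zero => intro c; rfl
    | succ j ih => intro c; rw [pow_succ', Equiv.Perm.mul_apply, hfR, ih]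
  have hRp : (R ^ n₀) ^ p ^ (N + n) = 1 := by
    rw [← pow_mul]
    refine Equiv.ext fun c => ?_
    refine KEY_ext_inj π (p ^ N) hm _ _ fun i => ?_
    rw [hRj]
    have h1 : i + n₀ * p ^ (N + n) = i + p ^ N * (n₀ * p ^ n) := by
      rw [pow_add]
      ring
    rw [h1, KEY_ext_add, pow_mul, hπ]
    rfl
  have h := hORB p M hS (Fin (p ^ N) → X) (R ^ n₀) (N + n) N hRp f hI (fun c => hfRj n₀ c)
  obtain ⟨F', hF', hFs⟩ : ∃ F' : Finset (Fin (p ^ N) → X), (∀ c, c ∈ F' ↔ ((R ^ n₀) ^ (p ^ N)) c = c) ∧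
      Small p M (N + 1) (∑ c, f c - ∑ c ∈ F', f c) := ⟨_, fun c => by simp, h⟩
  refine ⟨F', fun c => ?_, hFs⟩
  · rw [hF']
    constructor
    · intro hc i
      have h1 := hRj (n₀ * p ^ N) c i
      rw [pow_mul, hc] at h1
      have h2 : (i : ℕ) + n₀ * p ^ N = i + p ^ N * n₀ := by ring
      rw [h2, KEY_ext_add, KEY_ext_lt] at h1
      exact h1.symm
    · intro hc
      refine KEY_ext_inj π (p ^ N) hm _ _ fun i => ?_
      rw [← pow_mul, hRj]
      have h2 : (i : ℕ) + n₀ * p ^ N = i + p ^ N * n₀ := by ring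
      rw [h2, KEY_ext_add]
      have h3 : ∀ k : ℕ, (π ^ n₀) ((π ^ k) (c ⟨i % p ^ N, Nat.mod_lt _ hm⟩)) = (π ^ k) (c ⟨i % p ^ N, Nat.mod_lt _ hm⟩) := by
        intro k
        rw [← Equiv.Perm.mul_apply, ← pow_add, add_comm, pow_add, Equiv.Perm.mul_apply, hc]
      exact h3 _

end Pool.Agent.BR
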