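import Mathlib
import Pool.Agent.helper24.BR.SpecA
import Pool.Agent.helper70.BR.ROT

/-!
# Project BR (MP_baa4d7_al), block BP, REDUCTION: `BPM` (Broué-Puig integrality) from the abelian step `ABZ`

IDEA. `x` the defect class element, `A' = ∑_{q ∈ G/D} q x q⁻¹` (`cx`) acts on `ψ'` as the scalar `ω = |C(x) : D| cc ψ' (cls x)`, not in `M`. `ω ^ m * ∑_{(u,w)} TH u w * ψ' ((u w)⁻¹) = ∑_{(u,w)} TH u w * ∑_{c : Fin m → G/D} ψ' (YT c * (u w)⁻¹)` (UNI). ROTATION (ROT, proved): for `m = p ^ N` the inner sum is modulo `p ^ (N + 1)`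
the sum over the tuples `c` fixed by `u`. Regrouping by `(w, c)`: `u` runs through `R(w, c) = C(w) ⊓ ⋂ stab (c i)`, an ABELIAN `p`-group, commuting with `w` and `YT c`; this is the stabiliser of `(w, c)` in `G`, so by `FRB_orb` it suffices that every inner sum is `|R|` times `IntAt` (ABZ and EXA).

RULES. File `Pool/Agent/<seat>/BR/XXX.lean` with

  import Pool.Agent.helper70.BR.SpecR
  set_option autoImplicit false
  namespace Pool.Agent.BR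
  open Pool.Agent.helper58.DC Pool.Agent.DI Pool.Agent.GR Pool.Agent.OB Pool.Agent.DR Pool.Agent.FI Pool.Agent.FI3 Pool.Agent.FI4 Pool.Agent.LE
  theorem XXX (hYYY : YYY_stmt) ... : XXX_stmt := ...
  end Pool.Agent.BR

auxiliary lemmas prefixed `XXX_`, no sorry, no double quotes in the file, no `convert`, no `congr!`.
-/

set_option autoImplicit false

namespace Pool.Agent.BR

open Pool.Agent.helper58.DC Pool.Agent.DI Pool.Agent.GR Pool.Agent.OB Pool.Agent.DR Pool.Agent.FI Pool.Agent.FI3 Pool.Agent.FI4 Pool.Agent.LE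

section

variable {G : Type} [Group G]

/-- The conjugate `q x q⁻¹` of `x` for a coset `q` of `D` (`D` commutes with `x`). -/
noncomputable def cx (D : Subgroup G) (x : G) (q : G ⧸ D) : G := q.out * x * q.out⁻¹

/-- The product of these conjugates. -/
noncomputable def YT (D : Subgroup G) (x : G) {m : ℕ} (c : Fin m → G ⧸ D) : G := (List.ofFn fun i => cx D x (c i)).prod

theorem cx_mk {D : Subgroup G} {x : G} (hx : ∀ d ∈ D, d * x = x * d) (t : G) : cx D x (t : G ⧸ D) = t * x * t⁻¹ := by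
  unfold cx
  obtain ⟨d, hd⟩ := QuotientGroup.mk_out_eq_mul D t
  rw [hd]
  have h1 : (d : G) * x = x * d := hx d d.2
  calc t * (d : G) * x * (t * (d : G))⁻¹ = t * ((d : G) * x) * (d : G)⁻¹ * t⁻¹ := by group
    _ = t * (x * d) * (d : G)⁻¹ * t⁻¹ := by rw [h1]
    _ = _ := by group

theorem cx_smul {D : Subgroup G} {x : G} (hx : ∀ d ∈ D, d * x = x * d) (g : G) (q : G ⧸ D) :
    cx D x (g • q) = g * cx D x q * g⁻¹ := by
  obtain ⟨t, rfl⟩ := QuotientGroup.mk_surjective q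
  have h1 : g • (t : G ⧸ D) = ((g * t : G) : G ⧸ D) := rfl
  rw [h1, cx_mk hx, cx_mk hx]
  group

end

/-! ## 1. Pure rows -/

/-- **UNI** (short-medium; from EVM of `helper83/FI/SpecR`). Proof: one factor: `∑_{q ∈ G/D} ψ (cx q * g) = ω ψ g`: `|D| ∑_q ψ (cx q * g) = ∑_{t ∈ G} ψ (t x t⁻¹ * g)` (`cx_mk`; the fibres of `G → G/D` have `|D|` elements) `= |C(x)| ∑_y cls ⊤ x y * ψ (y * g)` (for `y` in the class of `x` there are `|C(x)|` elements `t` with `t x t⁻¹ = y`)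
`= |C(x)| ev ψ (cls ⊤ x) g = |C(x)| cc ψ (cls ⊤ x) ψ g` (`ψ` is a class function; EVM last item; `CF ⊤ (cls ⊤ x)`: CLS). Induction on `m`: `Fin.consEquiv` (or `Fin.cons`), `YT c = cx (c 0) * YT (tail c)` (`List.ofFn_succ`), `ψ (cx (c 0) * Y * g) = ψ (Y * (g * cx (c 0)))`; sum first over the tail (induction hypothesis for `g * cx (c 0)`), `ψ (g * cx q) = ψ (cx q * g)`. -/
def UNI_stmt : Prop :=
  ∀ (G : Type) [Group G] [Finite G] (D : Subgroup G) (x : G), (∀ d ∈ D, d * x = x * d) → ∀ ψ ∈ IrrOn (⊤ : Subgroup G), ∀ (m : ℕ) (g : G),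
    ∑ᶠ c : Fin m → G ⧸ D, ψ (YT D x c * g) = ((Nat.card (Cz (⊤ : Subgroup G) x) : ℂ) / Nat.card D * cc ψ (cls (⊤ : Subgroup G) x)) ^ m * ψ g

/-- **EXA** (short-medium; from QRS, QCE of `helper70/FI/SpecQ1`). Expansion of `u ↦ ψ (a u⁻¹)` into linear characters of `R`. Proof: `S = Subgroup.closure (R ∪ {a})` (or `R ⊔ zpowers a`) is commutative, `Cen S s` for all `s ∈ S`. QRS (`L = ⊤`, `K = S`): `ψ g = ∑_{μ ∈ IrrOn S} n μ * μ g` for `g ∈ S`, `n μ` natural numbers. QCE: `μ (a u⁻¹) * μ 1 = μ a * μ u⁻¹`, so with `k u = μ u⁻¹ / μ 1`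
(`LC R k` by QCE, `μ 1 ≠ 0`): `μ (a u⁻¹) = μ 1 * (μ a / μ 1) * k u`. So the number is `∑_μ n μ * μ a * (|R|⁻¹ ∑_{u ∈ R} k u * F u)`, `μ a` integral. -/
def EXA_stmt : Prop :=
  ∀ (p : ℕ) (M : Ideal (integralClosure ℤ ℂ)), Setup p M → ∀ (G : Type) [Group G] [Finite G] (R : Subgroup G),
    (∀ a ∈ R, ∀ b ∈ R, a * b = b * a) → ∀ a ∈ cz R, ∀ ψ ∈ IrrOn (⊤ : Subgroup G), ∀ F : G → ℂ,
    (∀ k : G → ℂ, LC R k → IntAt M ((∑ᶠ u ∈ (R : Set G), k u * F u) / Nat.card R)) →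
    IntAt M ((∑ᶠ u ∈ (R : Set G), F u * ψ (a * u⁻¹)) / Nat.card R)

/-- **RDA** (medium; helper70; from UNI, EXA, ORB of GR, `ROT`, `FRB_orb`). The abstract reduction. -/
def RDA_stmt : Prop :=
  ∀ (p : ℕ) (M : Ideal (integralClosure ℤ ℂ)), Setup p M → ∀ (G : Type) [Group G] [Finite G] (D : Subgroup G) (x : G),
    IsPGroup p D → (∀ c ∈ D, ∀ d ∈ D, c * d = d * c) → (∀ d ∈ D, d * x = x * d) → Nat.card D = pp p (Cz (⊤ : Subgroup G) x) →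
    ∀ ψ' ∈ IrrOn (⊤ : Subgroup G), ¬ InM M (cc ψ' (cls (⊤ : Subgroup G) x)) →
    ∀ Φ : G → G → ℂ, (∀ g u w, Φ (g * u * g⁻¹) (g * w * g⁻¹) = Φ u w) → (∃ b : ℕ, 0 < b ∧ ∀ u w, IntAt M ((b : ℂ) * Φ u w)) →
    (∀ A : Subgroup G, IsPGroup p A → (∀ a ∈ A, ∀ b ∈ A, a * b = b * a) → ∀ w ∈ cz A, ∀ k : G → ℂ, LC A k →
      IntAt M ((∑ᶠ u ∈ (A : Set G), k u * Φ u w) / Nat.card A)) →
    IntAt M ((∑ᶠ z ∈ {z : G × G | PEl p z.1 ∧ PReg p z.2 ∧ z.1 * z.2 = z.2 * z.1}, Φ z.1 z.2 * ψ' (z.1 * z.2)⁻¹) / Nat.card G)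

/-! ## 2. Rows about `TH` -/

/-- **LNK** (short-medium; pure substitution). Proof: `|G| nl = ∑_{t ∈ G} ∑_{v ∈ D} ci v * l v * |C(v)|⁻¹ * ∑_{w' ∈ C(v), PReg} ev ψ (e_v) (v w') * ψ' ((v w')⁻¹)`; the right side is `∑_{(u, w)} ∑_{t : t u t⁻¹ ∈ D} ci (t u t⁻¹) / |C(u)| * l (t u t⁻¹) * ev ψ (e_(t u t⁻¹)) (t (u w) t⁻¹) * ψ' ((u w)⁻¹)`. Exchange the sums: for each `t` the map
`(u, w) ↦ (v, w') = (t u t⁻¹, t w t⁻¹)` is a bijection from the pairs with `t u t⁻¹ ∈ D` onto the pairs `v ∈ D`, `w' ∈ C(v)` `p`-regular (`v ∈ D` is a `p`-element: `D` is a `p`-group, `Rt.dfa`), `|C(u)| = |C(v)|`, `ψ' ((u w)⁻¹) = ψ' ((v w')⁻¹)` (class function). -/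
def LNK_stmt : Prop :=
  ∀ (p : ℕ) (M : Ideal (integralClosure ℤ ℂ)), Setup p M → ∀ (G : Type) [Group G] [Finite G]
    (D : Subgroup G) (x : G) (θ χ : G → ℂ), LoA p M D x θ χ → ∀ l : D →* ℂˣ,
    ∀ ψ ∈ IrrOn (⊤ : Subgroup G), ∀ ψ' ∈ IrrOn (⊤ : Subgroup G),
    (Nat.card G : ℂ) * nl p M D θ l ψ ψ' =
      ∑ᶠ z ∈ {z : G × G | PEl p z.1 ∧ PReg p z.2 ∧ z.1 * z.2 = z.2 * z.1}, TH M D θ l ψ z.1 z.2 * ψ' (z.1 * z.2)⁻¹

/-- **THC** (short). (1) substitution `t ↦ t g⁻¹` (`|C(g u g⁻¹)| = |C(u)|`). (2) `b = |G| ^ 3`: `|G| * ci v = |Cz T v| * (|G| / |cz D|)`, `|G| / |C(u)|` are natural numbers, `l v` is a root of unity, and `|G| * ev ψ (eS K S) g = (|G| / |K|) * ∑_x (∑_{η ∈ S} η 1 * η x⁻¹) * ψ (g x)` is an algebraic integer (values of characters; `S = Bl M K θ ⊆ IrrOn K`). -/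
def THC_stmt : Prop :=
  ∀ (p : ℕ) (M : Ideal (integralClosure ℤ ℂ)), Setup p M → ∀ (G : Type) [Group G] [Finite G]
    (D : Subgroup G) (θ : G → ℂ), ∀ l : D →* ℂˣ, ∀ ψ ∈ IrrOn (⊤ : Subgroup G),
    (∀ g u w, TH M D θ l ψ (g * u * g⁻¹) (g * w * g⁻¹) = TH M D θ l ψ u w) ∧
    ∃ b : ℕ, 0 < b ∧ ∀ u w, IntAt M ((b : ℂ) * TH M D θ l ψ u w)

/-- **BPMr** (short; helper70). -/
def BPMr_stmt : Prop := RDA_stmt → LNK_stmt → THC_stmt → ABZ_stmt → BPM_stmt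

end Pool.Agent.BR
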