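import Pool.Agent.helper45.BR.Spec

/-!
# Project br: (MP_af9036_an), module PBK: the Cauchy transform of a pull-back
-/

set_option autoImplicit false

open Complex Metric Set Filter Topology MeasureTheory MPS Pool.Agent.helper98.ILF
  Pool.Agent.helper16.Multibrot

noncomputable section

namespace BR

lemma PBK_root (n : ℕ) (hn : n ≠ 0) (c z : ℂ) (j : ℕ) :
    (om n ^ j * rt n (z - c)) ^ n + c = z := by
  have hn' : (n : ℂ) ≠ 0 := Nat.cast_ne_zero.mpr hn
  have h1 : om n ^ n = 1 := by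
    rw [om, ← Complex.exp_nat_mul]
    rw [mul_div_cancel₀ _ hn']
    exact Complex.exp_two_pi_mul_I
  have h2 : rt n (z - c) ^ n = z - c := by
    rw [rt, one_div]
    exact Complex.cpow_nat_inv_pow _ hn
  rw [mul_pow, ← pow_mul, mul_comm j n, pow_mul, h1, one_pow, one_mul, h2]
  ring

lemma PBK_norm (w : ℂ) : ‖(starRingEnd ℂ) w / w‖ ≤ 1 := by
  rw [norm_div, RCLike.norm_conj]
  exact div_self_le_one _

theorem PBK (hCB : NLF.CB_stmt) (hCTB : NLF.CTB_stmt) (hT1 : NLF.T1_stmt) (hTBD : MPS.TBD_stmt) :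
    PBK_stmt := by
  intro n c μ hn hc hμm hμ1 hμs b
  have hn0 : n ≠ 0 := by omega
  obtain ⟨hint, -, -, -⟩ := hCTB μ hμm hμ1 hμs
  obtain ⟨ν, hν⟩ : ∃ ν : ℂ → ℂ, ν = fun z => μ (z ^ n + c) * (starRingEnd ℂ) (fd n z) / fd n z :=
    ⟨_, rfl⟩
  have hfdm : Measurable (fd n) := by
    unfold fd
    fun_prop
  have hνm : Measurable ν := by
    rw [hν]
    have h1 : Measurable fun z : ℂ => μ (z ^ n + c) := hμm.comp (by fun_prop)
    have h2 : Measurable fun z : ℂ => (starRingEnd ℂ) (fd n z) :=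
      Complex.continuous_conj.measurable.comp hfdm
    exact (h1.mul h2).div hfdm
  have hν1 : ∀ z, ‖ν z‖ ≤ 1 := by
    intro z
    rw [hν]
    simp only [mul_div_assoc]
    rw [norm_mul]
    exact mul_le_one₀ (hμ1 _) (norm_nonneg _) (PBK_norm _)
  have hνs : ∀ z, ν z ≠ 0 → ‖z‖ < 4 := by
    intro z hz
    have h1 : μ (z ^ n + c) ≠ 0 := by
      intro h0
      apply hz
      rw [hν]
      simp only [h0, zero_mul, zero_div]
    exact (hTBD n c hn hc).2.1 4 z le_rfl (hμs _ h1)
  obtain ⟨hintν, -, -, -⟩ := hCTB ν hνm hν1 hνs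
  rw [← hν]
  by_cases hb : b = 0
  · subst hb
    have h1 : fd n (0 : ℂ) = 0 := by
      unfold fd
      rw [zero_pow (by omega), mul_zero]
    rw [h1, zero_pow (by omega), zero_add, zero_mul, sub_self]
  have hfd : fd n b ≠ 0 := by
    unfold fd
    have : (n : ℂ) ≠ 0 := by exact_mod_cast hn0
    exact mul_ne_zero this (pow_ne_zero _ hb)
  have hset : {y : ℂ | y ^ n + c ∈ (univ : Set ℂ)} = univ := by
    ext y
    simp
  have hI : (fun y => ν y * (1 / (y - b))) = fun y => ν y / (y - b) := by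
    funext y
    rw [mul_one_div]
  have hqm : Measurable fun z : ℂ => 1 / (z - b) := by fun_prop
  obtain ⟨-, h2⟩ := hCB n c (by omega) (fun y => ν y * (1 / (y - b))) univ (hνm.mul hqm)
    MeasurableSet.univ (by
      rw [hset, integrableOn_univ, hI]
      exact hintν b)
  rw [hset, setIntegral_univ, setIntegral_univ, hI] at h2
  have hne : ∀ a : ℂ, ∀ᵐ z : ℂ, z ≠ a := by
    intro a
    rw [ae_iff]
    simp
  have h3 : (fun z : ℂ => ∑ j ∈ Finset.range n,
      ν (om n ^ j * rt n (z - c)) * (1 / (om n ^ j * rt n (z - c) - b)) /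
      ((‖fd n (om n ^ j * rt n (z - c))‖ ^ 2 : ℝ) : ℂ)) =ᵐ[volume]
      fun z => (1 / fd n b) * (μ z / (z - (b ^ n + c)) - μ z / (z - c)) := by
    filter_upwards [hne c, hne (b ^ n + c)] with z hz1 hz2
    have h4 : rt n (z - c) ^ n = z - c := by
      rw [rt, one_div]
      exact Complex.cpow_nat_inv_pow _ hn0
    have h5 : rt n (z - c) ≠ 0 := by
      intro h0
      rw [h0, zero_pow (by omega)] at h4
      exact hz1 (sub_eq_zero.mp h4.symm)
    have h6 : rt n (z - c) ^ n ≠ b ^ n := by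
      rw [h4]
      intro h0
      exact hz2 (by rw [← h0]; ring)
    have h7 := hT1 n (rt n (z - c)) b hn h5 hb h6
    have h8 : ∀ j ∈ Finset.range n,
        ν (om n ^ j * rt n (z - c)) * (1 / (om n ^ j * rt n (z - c) - b)) /
        ((‖fd n (om n ^ j * rt n (z - c))‖ ^ 2 : ℝ) : ℂ) =
        μ z * ((1 / (om n ^ j * rt n (z - c) - b)) / fd n (om n ^ j * rt n (z - c)) ^ 2) := by
      intro j _
      set y := om n ^ j * rt n (z - c) with hy
      have hyz : y ^ n + c = z := PBK_root n hn0 c z j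
      have hy0 : y ≠ 0 := by
        intro h
        rw [h, zero_pow hn0, zero_add] at hyz
        exact hz1 hyz.symm
      have hfdy : fd n y ≠ 0 :=
        mul_ne_zero (Nat.cast_ne_zero.mpr hn0) (pow_ne_zero _ hy0)
      have hnorm : ((‖fd n y‖ ^ 2 : ℝ) : ℂ) = fd n y * (starRingEnd ℂ) (fd n y) := by
        rw [Complex.mul_conj, Complex.normSq_eq_norm_sq]
      have hcj : (starRingEnd ℂ) (fd n y) ≠ 0 := by
        rwa [Ne, map_eq_zero]
      have hνy : ν y = μ z * (starRingEnd ℂ) (fd n y) / fd n y := by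
        rw [hν]
        simp only [hyz]
      rw [hνy, hnorm]
      field_simp
    rw [Finset.sum_congr rfl h8, ← Finset.mul_sum, h7, h4,
      show z - c - b ^ n = z - (b ^ n + c) by ring]
    ring
  rw [integral_congr_ae h3, integral_const_mul,
    integral_sub (hint (b ^ n + c)) (hint c)] at h2
  have h8 : NLF.CT ν b = (1 / fd n b) * (NLF.CT μ (b ^ n + c) - NLF.CT μ c) := h2.symm
  rw [h8]
  field_simp

end BR
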