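import Pool.Agent.helper24.BR.SpecA
import Pool.Agent.helper59.FI.Base

set_option autoImplicit false

namespace Pool.Agent.BR

open Pool.Agent.helper58.DC Pool.Agent.DI Pool.Agent.GR Pool.Agent.OB Pool.Agent.DR Pool.Agent.FI Pool.Agent.FI3 Pool.Agent.FI4 Pool.Agent.LE

/-- Transport of the component of a block idempotent by conjugation. -/
theorem THB_tr (hFEQ : FEQ_stmt) : ∀ (G : Type) [Group G] [Finite G] (M : Ideal (integralClosure ℤ ℂ)) (θ ψ : G → ℂ) (t u g : G),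
    ψ ∈ IrrOn (⊤ : Subgroup G) →
    ev ψ (eS (Cz (⊤ : Subgroup G) (t * u * t⁻¹)) (Bl M (Cz (⊤ : Subgroup G) (t * u * t⁻¹)) θ)) (t * g * t⁻¹) =
      ev ψ (eS (Cz (⊤ : Subgroup G) u) (Bl M (Cz (⊤ : Subgroup G) u) (cjF t⁻¹ θ))) g := by
  intro G _ _ M θ ψ t u g hψ
  have hCz : Cz (⊤ : Subgroup G) (t * u * t⁻¹) = cjS t (Cz (⊤ : Subgroup G) u) := by
    have h := (hFEQ G M t t (⊤ : Subgroup G) (⊤ : Subgroup G) (⊤ : Subgroup G) ψ ψ ψ).2.2.1 u
    rw [h]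
    congr 1
    ext x
    rw [mem_cjS]
    exact ⟨fun _ => Subgroup.mem_top _, fun _ => Subgroup.mem_top _⟩
  rw [hCz]
  generalize Cz (⊤ : Subgroup G) u = K
  have hcard : Nat.card (cjS t K) = Nat.card K := (hFEQ G M t t K K K ψ ψ ψ).2.1.2.2.2.2.2
  have hinv : ∀ η : G → ℂ, cjF t (cjF t⁻¹ η) = η := by
    intro η
    have h := (hFEQ G M t t⁻¹ K K K η η η).1
    rw [h.2.1, mul_inv_cancel]
    exact h.2.2.2
  have hinv' : ∀ η : G → ℂ, cjF t⁻¹ (cjF t η) = η := by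
    intro η
    have h := (hFEQ G M t⁻¹ t K K K η η η).1
    rw [h.2.1, inv_mul_cancel]
    exact h.2.2.2
  have hBl : ∀ η : G → ℂ, η ∈ Bl M K (cjF t⁻¹ θ) ↔ cjF t η ∈ Bl M (cjS t K) θ := by
    intro η
    have h := (hFEQ G M t t K K K (cjF t⁻¹ θ) η η).2.2.2.2.2.2.1
    rw [hinv] at h
    exact h
  have hset : Bl M (cjS t K) θ = cjF t '' Bl M K (cjF t⁻¹ θ) := by
    ext η
    constructor
    · intro h
      refine ⟨cjF t⁻¹ η, ?_, hinv η⟩
      rw [hBl, hinv]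
      exact h
    · rintro ⟨φ, h, rfl⟩
      exact (hBl φ).1 h
  have hinj : Set.InjOn (cjF t) (Bl M K (cjF t⁻¹ θ)) := by
    intro a _ b _ h
    rw [← hinv' a, h, hinv']
  have heS : ∀ x : G, eS (cjS t K) (Bl M (cjS t K) θ) (t * x * t⁻¹) = eS K (Bl M K (cjF t⁻¹ θ)) x := by
    intro x
    unfold eS
    rw [hcard, hset, finsum_mem_image hinj]
    congr 1
    refine finsum_mem_congr rfl fun φ _ => ?_
    rw [cjF_apply, cjF_apply]
    have h1 : t⁻¹ * 1 * t = 1 := by group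
    have h2 : t⁻¹ * (t * x * t⁻¹)⁻¹ * t = x⁻¹ := by group
    rw [h1, h2]
  unfold ev
  symm
  refine finsum_eq_of_bijective (fun x : G => t * x * t⁻¹) (MulAut.conj t).bijective fun x => ?_
  rw [heS]
  congr 1
  have h3 : t * g * t⁻¹ * (t * x * t⁻¹) = t * (g * x) * t⁻¹ := by group
  rw [h3, IrrOn_conj hψ (Subgroup.mem_top t)]

end Pool.Agent.BR
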